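import Mathlib

set_option autoImplicit false

/-!
# Lexicographically least words avoiding all powers `≥ a/b`: common part

`Avoids a b w` is the hypothesis on `w` in the problem, `Least a b w` says in addition that `w` is
the lexicographically least such word over `ℕ`.
-/

namespace Pool.Agent.LexPow

/-- no factor of length `n` has a period `m` with `n / m ≥ a / b` -/
def Avoids (a b : ℕ) (w : ℕ → ℕ) : Prop :=
  ∀ i n m : ℕ, 0 < m → a * m ≤ b * n → ¬ ∀ j : ℕ, j + m < n → w (i + j) = w (i + j + m)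

/-- `w` is the lexicographically least infinite word over `ℕ` avoiding all powers `≥ a / b` -/
def Least (a b : ℕ) (w : ℕ → ℕ) : Prop :=
  Avoids a b w ∧ ∀ v : ℕ → ℕ, Avoids a b v → v ≠ w → ∃ i : ℕ, (∀ j < i, w j = v j) ∧ w i < v i

/-- no factor of length `n` has a period `m` with `n / m = a / b` -/
def AvoidsExact (a b : ℕ) (w : ℕ → ℕ) : Prop :=
  ∀ i n m : ℕ, 0 < m → a * m = b * n → ¬ ∀ j : ℕ, j + m < n → w (i + j) = w (i + j + m)

/-- `w` is the lexicographically least infinite word over `ℕ` avoiding `a / b`-powers -/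
def LeastExact (a b : ℕ) (w : ℕ → ℕ) : Prop :=
  AvoidsExact a b w ∧
    ∀ v : ℕ → ℕ, AvoidsExact a b v → v ≠ w → ∃ i : ℕ, (∀ j < i, w j = v j) ∧ w i < v i

/-- if a word `w` agrees with `W` before `i` and has at `i` a blocked letter, then it has a factor of
length `n` and period `m` -/
theorem factor_of_blocked {w W : ℕ → ℕ} {i : ℕ} (h1 : ∀ j < i, w j = W j) {n m : ℕ}
    (hm : 0 < m) (hmn : m < n) (hn : n ≤ i + 1)
    (hmatch : ∀ t : ℕ, 1 ≤ t → t + m < n → W (i - t) = W (i - t - m)) (hc : W (i - m) = w i) :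
    ∀ j : ℕ, j + m < n → w (i + 1 - n + j) = w (i + 1 - n + j + m) := by
  intro j hj
  by_cases hlast : j + m + 1 = n
  · have e1 : i + 1 - n + j = i - m := by omega
    rw [e1, show i - m + m = i by omega, h1 (i - m) (by omega), hc]
  · have ht := hmatch (n - 1 - j - m) (by omega) (by omega)
    have e1 : i + 1 - n + j = i - (n - 1 - j - m) - m := by omega
    rw [e1]
    rw [show i - (n - 1 - j - m) - m + m = i - (n - 1 - j - m) by omega]
    rw [h1 _ (by omega), h1 _ (by omega)]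
    exact ht.symm

/-- two different words have a first difference -/
theorem first_diff {v W : ℕ → ℕ} (h : v ≠ W) : ∃ i, (∀ j < i, v j = W j) ∧ v i ≠ W i := by
  classical
  have h' : ∃ i, v i ≠ W i := Function.ne_iff.1 h
  exact ⟨Nat.find h', fun j hj => not_not.1 (Nat.find_min h' hj), Nat.find_spec h'⟩

theorem least_of_blocked {a b : ℕ} {W v : ℕ → ℕ}
    (hB : ∀ i c : ℕ, c < W i → ∃ n m : ℕ, 0 < m ∧ m < n ∧ n ≤ i + 1 ∧ a * m ≤ b * n ∧
      (∀ t : ℕ, 1 ≤ t → t + m < n → W (i - t) = W (i - t - m)) ∧ W (i - m) = c)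
    (hv : Avoids a b v) (hne : v ≠ W) : ∃ i : ℕ, (∀ j < i, W j = v j) ∧ W i < v i := by
  obtain ⟨i, h1, h2⟩ := first_diff hne
  refine ⟨i, fun j hj => (h1 j hj).symm, ?_⟩
  by_contra h3
  obtain ⟨n, m, hm, hmn, hn, hab, hmatch, hc⟩ := hB i (v i) (by omega)
  exact hv (i + 1 - n) n m hm hab (factor_of_blocked h1 hm hmn hn hmatch hc)

theorem leastExact_of_blocked {a b : ℕ} {W v : ℕ → ℕ}
    (hB : ∀ i c : ℕ, c < W i → ∃ n m : ℕ, 0 < m ∧ m < n ∧ n ≤ i + 1 ∧ a * m = b * n ∧
      (∀ t : ℕ, 1 ≤ t → t + m < n → W (i - t) = W (i - t - m)) ∧ W (i - m) = c)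
    (hv : AvoidsExact a b v) (hne : v ≠ W) : ∃ i : ℕ, (∀ j < i, W j = v j) ∧ W i < v i := by
  obtain ⟨i, h1, h2⟩ := first_diff hne
  refine ⟨i, fun j hj => (h1 j hj).symm, ?_⟩
  by_contra h3
  obtain ⟨n, m, hm, hmn, hn, hab, hmatch, hc⟩ := hB i (v i) (by omega)
  exact hv (i + 1 - n) n m hm hab (factor_of_blocked h1 hm hmn hn hmatch hc)

/-- a word which avoids the powers, and in which every smaller letter is blocked at every position,
is the least word -/
theorem Least.eq_of_blocked {a b : ℕ} {w W : ℕ → ℕ} (hw : Least a b w) (hW : Avoids a b W)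
    (hB : ∀ i c : ℕ, c < W i → ∃ n m : ℕ, 0 < m ∧ m < n ∧ n ≤ i + 1 ∧ a * m ≤ b * n ∧
      (∀ t : ℕ, 1 ≤ t → t + m < n → W (i - t) = W (i - t - m)) ∧ W (i - m) = c) : w = W := by
  by_contra hne
  obtain ⟨i, h1, h2⟩ := hw.2 W hW (fun h => hne h.symm)
  obtain ⟨n, m, hm, hmn, hn, hab, hmatch, hc⟩ := hB i (w i) h2
  exact hw.1 (i + 1 - n) n m hm hab (factor_of_blocked h1 hm hmn hn hmatch hc)

theorem LeastExact.eq_of_blocked {a b : ℕ} {w W : ℕ → ℕ} (hw : LeastExact a b w)
    (hW : AvoidsExact a b W)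
    (hB : ∀ i c : ℕ, c < W i → ∃ n m : ℕ, 0 < m ∧ m < n ∧ n ≤ i + 1 ∧ a * m = b * n ∧
      (∀ t : ℕ, 1 ≤ t → t + m < n → W (i - t) = W (i - t - m)) ∧ W (i - m) = c) : w = W := by
  by_contra hne
  obtain ⟨i, h1, h2⟩ := hw.2 W hW (fun h => hne h.symm)
  obtain ⟨n, m, hm, hmn, hn, hab, hmatch, hc⟩ := hB i (w i) h2
  exact hw.1 (i + 1 - n) n m hm hab (factor_of_blocked h1 hm hmn hn hmatch hc)

/-- the letter sequence of `w` is `k`-regular: the `ℤ`-module spanned by its `k`-kernel is finitely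
generated -/
def Regular (k : ℕ) (w : ℕ → ℕ) : Prop :=
  (Submodule.span ℤ {f : ℕ → ℤ | ∃ e r : ℕ, r < k ^ e ∧
    f = fun n => ((w (k ^ e * n + r) : ℕ) : ℤ)}).FG

/-- `f ↦ f (k n + r)` as a linear map -/
def shf (k r : ℕ) : (ℕ → ℤ) →ₗ[ℤ] (ℕ → ℤ) where
  toFun f := fun n => f (k * n + r)
  map_add' _ _ := rfl
  map_smul' _ _ := rfl

/-- regularity from a finite generating set of a stable module -/
theorem regular_of_stable {k : ℕ} (hk : 0 < k) {G : Set (ℕ → ℤ)} (hG : G.Finite)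
    (hst : ∀ r < k, ∀ f ∈ G, (fun n => f (k * n + r)) ∈ Submodule.span ℤ G) {w : ℕ → ℕ}
    (hw : (fun n => ((w n : ℕ) : ℤ)) ∈ Submodule.span ℤ G) : Regular k w := by
  have hst' : ∀ r < k, ∀ f ∈ Submodule.span ℤ G, (fun n => f (k * n + r)) ∈ Submodule.span ℤ G := by
    intro r hr f hf
    have h1 : Submodule.span ℤ G ≤ (Submodule.span ℤ G).comap (shf k r) :=
      Submodule.span_le.2 fun g hg => hst r hr g hg
    exact h1 hf
  have hall : ∀ e r : ℕ, r < k ^ e →
      (fun n => ((w (k ^ e * n + r) : ℕ) : ℤ)) ∈ Submodule.span ℤ G := by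
    intro e
    induction e with
    | zero =>
      intro r hr
      have : r = 0 := by simpa using hr
      subst this
      simpa using hw
    | succ e ih =>
      intro r hr
      have h1 := ih (r % k ^ e) (Nat.mod_lt _ (by positivity))
      have h2 := hst' (r / k ^ e) (Nat.div_lt_of_lt_mul (by rw [← pow_succ]; exact hr)) _ h1
      have e1 : (fun n => ((w (k ^ (e + 1) * n + r) : ℕ) : ℤ)) =
          fun n => ((w (k ^ e * (k * n + r / k ^ e) + r % k ^ e) : ℕ) : ℤ) := by
        funext n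
        congr 2
        have := Nat.div_add_mod r (k ^ e)
        rw [pow_succ]
        nlinarith
      rw [e1]; exact h2
  have : IsNoetherian ℤ (Submodule.span ℤ G) :=
    isNoetherian_of_fg_of_noetherian _ ⟨hG.toFinset, by rw [hG.coe_toFinset]⟩
  refine Submodule.FG.of_le_of_isNoetherian (T := Submodule.span ℤ G) (Submodule.span_le.2 ?_)
  rintro f ⟨e, r, hr, rfl⟩
  exact hall e r hr

/-- periodic functions lie in the span of the indicators of residue classes -/
theorem periodic_mem {q : ℕ} (hq : 0 < q) {G : Set (ℕ → ℤ)}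
    (hG : ∀ j < q, (fun n => if n % q = j then (1 : ℤ) else 0) ∈ G) {p : ℕ → ℤ}
    (hp : ∀ n, p n = p (n % q)) : p ∈ Submodule.span ℤ G := by
  have e : p = ∑ j ∈ Finset.range q, p j • (fun n => if n % q = j then (1 : ℤ) else 0) := by
    funext n
    rw [Finset.sum_apply]
    simp only [Pi.smul_apply, smul_eq_mul, mul_ite, mul_one, mul_zero]
    rw [Finset.sum_ite_eq, if_pos (Finset.mem_range.2 (Nat.mod_lt _ hq))]
    exact hp n
  rw [e]
  exact Submodule.sum_mem _ fun j hj => Submodule.smul_mem _ _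
    (Submodule.subset_span (hG j (Finset.mem_range.1 hj)))

end Pool.Agent.LexPow
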