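import Pool.Agent.LexPow.FourThirdsData

set_option autoImplicit false

/-!
# The words `w_{4/3}` and `w_{≥4/3}`
-/

namespace Pool.Agent.LexPow.FT

open Planes

/-- the abstract letter of `w_{4/3}` at `n` (3 at the star positions) -/
def A (n : ℕ) : ℕ := letter vb (red 18 56 n)

/-- the abstract letter of `w_{≥4/3}` at `n` (7 at the star positions) -/
def B (n : ℕ) : ℕ := letter wb (red 1667 1008 n)

/-- `0 ↦ 1`, `n ↦ n + 2` for `n ≥ 1` -/
def g (n : ℕ) : ℕ := if n = 0 then 1 else n + 2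

theorem g_inj {a b : ℕ} (h : g a = g b) : a = b := by
  unfold g at h; split_ifs at h <;> omega

theorem g_ne2 (a : ℕ) : g a ≠ 2 := by unfold g; split_ifs <;> omega

theorem g_pos (a : ℕ) : 1 ≤ g a := by unfold g; split_ifs <;> omega

/-- explicit form of `w_{4/3}` -/
def V (n : ℕ) : ℕ := if h : n % 56 = 17 ∧ 73 ≤ n then g (V ((n - 73) / 56)) else A n
termination_by n
decreasing_by omega

/-- explicit form of `w_{≥4/3}` -/
def W (n : ℕ) : ℕ := if n % 336 = 322 ∧ 2002 ≤ n then g (V ((n - 2002) / 336)) + 4 else B n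

theorem V_st (x : ℕ) : V (73 + 56 * x) = g (V x) := by
  rw [V, dif_pos (by omega)]; congr 2; omega

theorem V_st' {n : ℕ} (h : n % 56 = 17) (h' : 73 ≤ n) : V n = g (V ((n - 73) / 56)) := by
  rw [V, dif_pos ⟨h, h'⟩]

theorem V_ns {n : ℕ} (h : ¬ (n % 56 = 17 ∧ 73 ≤ n)) : V n = A n := by
  rw [V, dif_neg h]

theorem W_st (x : ℕ) : W (2002 + 336 * x) = g (V x) + 4 := by
  rw [W, if_pos (by omega)]; congr 3; omega

theorem W_ns {n : ℕ} (h : ¬ (n % 336 = 322 ∧ 2002 ≤ n)) : W n = B n := by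
  rw [W, if_neg h]

/-! ### abstract letters -/

theorem A_eq {n : ℕ} (hn : n < 200) : letter vb n = A n := letter_red v_per (by norm_num) hn

theorem B_eq {n : ℕ} (hn : n < 5800) : letter wb n = B n := letter_red w_per (by norm_num) hn

theorem A_cong {a b : ℕ} (h : Cong 18 56 a b) : A a = A b := by
  rw [A, A, red_cong (by norm_num) h]

theorem B_cong {a b : ℕ} (h : Cong 1667 1008 a b) : B a = B b := by
  rw [B, B, red_cong (by norm_num) h]

theorem A_star (n : ℕ) : A n = 3 ↔ n % 56 = 17 ∧ 73 ≤ n := by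
  have key : ∀ m < 74, (letter vb m = 3 ↔ (m % 56 = 17 ∧ 73 ≤ m)) := by
    intro m hm
    have := List.all_eq_true.1 v_star m (List.mem_range.2 hm)
    rw [beq_iff_eq] at this
    have h2 := congrArg (· = true) this
    simpa using h2
  have hr : red 18 56 n < 74 := by
    rw [red]; split_ifs with h
    · exact h
    · have := Nat.mod_lt (n - 18) (show 0 < 56 by norm_num); omega
  rw [A, key _ hr, red]
  split_ifs with h
  · rfl
  · have h1 := Nat.mod_lt (n - 18) (show 0 < 56 by norm_num)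
    constructor
    · rintro ⟨h2, h3⟩; omega
    · rintro ⟨h2, h3⟩; omega

theorem B_star (n : ℕ) : B n = 7 ↔ n % 336 = 322 ∧ 2002 ≤ n := by
  have key : ∀ m < 2675, (letter wb m = 7 ↔ (m % 336 = 322 ∧ 2002 ≤ m)) := by
    intro m hm
    have := List.all_eq_true.1 w_star m (List.mem_range.2 hm)
    rw [beq_iff_eq] at this
    have h2 := congrArg (· = true) this
    simpa using h2
  have hr : red 1667 1008 n < 2675 := by
    rw [red]; split_ifs with h
    · exact h
    · have := Nat.mod_lt (n - 1667) (show 0 < 1008 by norm_num); omega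
  rw [B, key _ hr, red]
  split_ifs with h
  · rfl
  · have h1 := Nat.mod_lt (n - 1667) (show 0 < 1008 by norm_num)
    constructor
    · rintro ⟨h2, h3⟩; omega
    · rintro ⟨h2, h3⟩; omega

theorem letter_lt (bs : List ℕ) (n : ℕ) : letter bs n < 2 ^ bs.length := by
  induction bs with
  | nil => simp [letter]
  | cons b bs ih =>
    rw [letter, List.length_cons, pow_succ]
    have : (b.testBit n).toNat ≤ 1 := Bool.toNat_le _
    omega

theorem A_lt (n : ℕ) : A n < 4 := letter_lt vb _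

theorem B_lt (n : ℕ) : B n < 8 := letter_lt wb _

theorem V_of_A {n : ℕ} (h : A n ≠ 3) : V n = A n := V_ns fun h' => h ((A_star n).2 h')

theorem W_of_B {n : ℕ} (h : B n ≠ 7) : W n = B n := W_ns fun h' => h ((B_star n).2 h')

theorem V_at_star {n : ℕ} (h : A n = 3) : V n = 1 ∨ 3 ≤ V n := by
  obtain ⟨h1, h2⟩ := (A_star n).1 h
  rw [V_st' h1 h2, g]; split_ifs <;> omega

theorem W_at_star {n : ℕ} (h : B n = 7) : W n = 5 ∨ 7 ≤ W n := by
  obtain ⟨h1, h2⟩ := (B_star n).1 h
  rw [W, if_pos ⟨h1, h2⟩, g]; split_ifs <;> omega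

/-- surely different abstract letters of `w_{4/3}` -/
def SA (x y : ℕ) : Prop := x ≠ y ∧ ¬ (x = 3 ∧ y = 1) ∧ ¬ (x = 1 ∧ y = 3)

/-- surely different abstract letters of `w_{≥4/3}` -/
def SB (x y : ℕ) : Prop := x ≠ y ∧ ¬ (x = 7 ∧ y = 5) ∧ ¬ (x = 5 ∧ y = 7)

theorem V_ne {a b : ℕ} (h : SA (A a) (A b)) : V a ≠ V b := by
  obtain ⟨h1, h2, h3⟩ := h
  have ha := A_lt a
  have hb := A_lt b
  by_cases h4 : A a = 3 <;> by_cases h5 : A b = 3
  · omega
  · rw [V_of_A h5]; have := V_at_star h4; omega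
  · rw [V_of_A h4]; have := V_at_star h5; omega
  · rw [V_of_A h4, V_of_A h5]; exact h1

theorem W_ne {a b : ℕ} (h : SB (B a) (B b)) : W a ≠ W b := by
  obtain ⟨h1, h2, h3⟩ := h
  have ha := B_lt a
  have hb := B_lt b
  by_cases h4 : B a = 7 <;> by_cases h5 : B b = 7
  · omega
  · rw [W_of_B h5]; have := W_at_star h4; omega
  · rw [W_of_B h4]; have := W_at_star h5; omega
  · rw [W_of_B h4, W_of_B h5]; exact h1

theorem vst_bit {n : ℕ} (hn : n < 200) : vst.testBit n = decide (A n = 3) := by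
  rw [vst, testBit_eqm 200 vb 3 n hn, A_eq hn]

theorem vfv_bit {n : ℕ} (hn : n < 200) : vfv.testBit n = decide (A n = 1) := by
  rw [vfv, testBit_eqm 200 vb 1 n hn, A_eq hn]

theorem wst_bit {n : ℕ} (hn : n < 5800) : wst.testBit n = decide (B n = 7) := by
  rw [wst, testBit_eqm 5800 wb 7 n hn, B_eq hn]

theorem wfv_bit {n : ℕ} (hn : n < 5800) : wfv.testBit n = decide (B n = 5) := by
  rw [wfv, testBit_eqm 5800 wb 5 n hn, B_eq hn]

theorem v_mis_use {R m r i : ℕ} (h : mis vb vst vfv R m r = true) (hi : i < R)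
    (hL : R + r + m ≤ 200) : ∃ j ≤ r, SA (A (i + j)) (A (i + j + m)) := by
  obtain ⟨j, hj, h1, h2, h3⟩ := mis_spec h hi
  refine ⟨j, hj, ?_⟩
  rw [A_eq (by omega), A_eq (by omega)] at h1
  rw [vst_bit (by omega), vfv_bit (by omega)] at h2 h3
  simp only [decide_eq_true_iff] at h2 h3
  exact ⟨h1, h2, h3⟩

theorem w_mis_use {R m r i : ℕ} (h : mis wb wst wfv R m r = true) (hi : i < R)
    (hL : R + r + m ≤ 5800) : ∃ j ≤ r, SB (B (i + j)) (B (i + j + m)) := by
  obtain ⟨j, hj, h1, h2, h3⟩ := mis_spec h hi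
  refine ⟨j, hj, ?_⟩
  rw [B_eq (by omega), B_eq (by omega)] at h1
  rw [wst_bit (by omega), wfv_bit (by omega)] at h2 h3
  simp only [decide_eq_true_iff] at h2 h3
  exact ⟨h1, h2, h3⟩

/-! ### `V` avoids exact `4/3`-powers -/

theorem V_avoid (k : ℕ) : 1 ≤ k → ∀ i : ℕ, ∃ j < k, V (i + j) ≠ V (i + j + 3 * k) := by
  induction k using Nat.strong_induction_on with
  | _ k ih =>
  intro k1 i
  by_cases hk : k % 56 = 0
  · obtain ⟨d, rfl⟩ : ∃ d, k = 56 * d := ⟨k / 56, by omega⟩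
    by_cases hi : i ≤ 17
    · refine ⟨17 - i, by omega, ?_⟩
      rw [show i + (17 - i) = 17 by omega]
      have e1 : V 17 = 2 := by
        rw [V_ns (by omega), ← A_eq (by norm_num)]; decide +kernel
      have e2 : V (17 + 3 * (56 * d)) = g (V (3 * d - 1)) := by
        rw [show 17 + 3 * (56 * d) = 73 + 56 * (3 * d - 1) by omega, V_st]
      rw [e1, e2]; exact (g_ne2 _).symm
    · obtain ⟨j, hj, hne⟩ := ih d (by omega) (by omega) ((i - 18) / 56)
      refine ⟨73 + 56 * ((i - 18) / 56 + j) - i, by omega, ?_⟩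
      rw [show i + (73 + 56 * ((i - 18) / 56 + j) - i) = 73 + 56 * ((i - 18) / 56 + j) by omega,
        show 73 + 56 * ((i - 18) / 56 + j) + 3 * (56 * d) = 73 + 56 * ((i - 18) / 56 + j + 3 * d) by
          ring, V_st, V_st]
      exact fun h => hne (g_inj h)
  · -- reduce the position
    obtain ⟨i', hi', hc⟩ : ∃ i', i' < 74 ∧ (i = i' ∨ (18 ≤ i ∧ 18 ≤ i' ∧ i % 56 = i' % 56)) := by
      by_cases h : i < 74
      · exact ⟨i, h, Or.inl rfl⟩
      · exact ⟨18 + (i - 18) % 56, by omega, Or.inr ⟨by omega, by omega, by omega⟩⟩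
    by_cases hs : k < 25
    · have h1 := List.all_eq_true.1 v_mis_small k (List.mem_range.2 hs)
      rw [Bool.or_eq_true, beq_iff_eq] at h1
      obtain ⟨j, hj, hsa⟩ := v_mis_use (h1.resolve_left (by omega)) hi' (by omega)
      refine ⟨j, by omega, V_ne ?_⟩
      rw [A_cong (a := i + j) (b := i' + j) (by unfold Cong; omega),
        A_cong (a := i + j + 3 * k) (b := i' + j + 3 * k) (by unfold Cong; omega)]
      exact hsa
    · obtain ⟨m, hm1, hm2, hm3⟩ : ∃ m, 18 ≤ m ∧ m < 74 ∧ (3 * k) % 56 = m % 56 :=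
        ⟨18 + (3 * k - 18) % 56, by omega, by omega, by omega⟩
      have h1 := List.all_eq_true.1 v_mis_big m (List.mem_range.2 hm2)
      simp only [Bool.or_eq_true, beq_iff_eq, decide_eq_true_iff] at h1
      obtain ⟨j, hj, hsa⟩ := v_mis_use (h1.resolve_left (by omega)) hi' (by omega)
      refine ⟨j, by omega, V_ne ?_⟩
      rw [A_cong (a := i + j) (b := i' + j) (by unfold Cong; omega),
        A_cong (a := i + j + 3 * k) (b := i' + j + m) (by unfold Cong; omega)]
      exact hsa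

/-! ### local blocking -/

theorem V_local {i c : ℕ} (hc : c < 3) (h : A i = 3 ∧ c ≠ 1 ∨ A i ≠ 3 ∧ c < A i) :
    ∃ k : ℕ, 1 ≤ k ∧ 4 * k ≤ i + 1 ∧
    (∀ t : ℕ, 1 ≤ t → t < k → V (i - t) = V (i - t - 3 * k)) ∧ V (i - 3 * k) = c := by
  obtain ⟨i', hi', hcg⟩ : ∃ i', i' < 96 ∧ (i = i' ∨ (40 ≤ i ∧ 40 ≤ i' ∧ i % 56 = i' % 56)) := by
    by_cases h : i < 96
    · exact ⟨i, h, Or.inl rfl⟩
    · exact ⟨40 + (i - 40) % 56, by omega, Or.inr ⟨by omega, by omega, by omega⟩⟩
  have e0 : letter vb i' = A i := by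
    rw [A_eq (by omega)]; exact A_cong (by unfold Cong; omega)
  have hlt := A_lt i
  have hml : ∀ p ∈ vml, 1 ≤ p.2 ∧ p.1 = 3 * p.2 ∧ p.2 ≤ 4 := by decide
  have key : ∀ cs : List ℕ, blocked 200 vb vst 150 vml 0 96 c cs = true → A i ∈ cs →
      ∃ k : ℕ, 1 ≤ k ∧ 4 * k ≤ i + 1 ∧
        (∀ t : ℕ, 1 ≤ t → t < k → V (i - t) = V (i - t - 3 * k)) ∧ V (i - 3 * k) = c := by
    intro cs hb hmem
    obtain ⟨p, hp, h1, h2, h3⟩ := blocked_spec hb (fun p hp => (hml p hp).1) (Nat.zero_le _) hi'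
      (by norm_num) (by rw [e0]; exact hmem)
    obtain ⟨p1, p2, p4⟩ := hml p hp
    rw [p2] at h1 h2 h3
    refine ⟨p.2, p1, by omega, ?_, ?_⟩
    · intro t t1 t2
      obtain ⟨h4, h5⟩ := h3 t t1 t2
      rw [A_eq (by omega), A_eq (by omega)] at h4
      rw [vst_bit (by omega), decide_eq_false_iff_not] at h5
      rw [A_cong (a := i' - t - 3 * p.2) (b := i - t - 3 * p.2) (by unfold Cong; omega)] at h4 h5
      rw [A_cong (a := i' - t) (b := i - t) (by unfold Cong; omega)] at h4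
      rw [V_of_A h5, V_of_A (by rw [← h4]; exact h5), h4]
    · rw [A_eq (by omega), A_cong (a := i' - 3 * p.2) (b := i - 3 * p.2) (by unfold Cong; omega)] at h2
      rw [V_of_A (by omega), h2]
  obtain ⟨b0, b1, b2⟩ := v_blocked
  have hcc : c = 0 ∨ c = 1 ∨ c = 2 := by omega
  rcases hcc with rfl | rfl | rfl
  · refine key _ b0 ?_
    have : A i = 1 ∨ A i = 2 ∨ A i = 3 := by omega
    rcases this with h | h | h <;> rw [h] <;> decide
  · refine key _ b1 ?_
    have : A i = 2 := by omega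
    rw [this]; decide
  · refine key _ b2 ?_
    have : A i = 3 := by omega
    rw [this]; decide

/-- every smaller letter is blocked in `V` -/
theorem V_blocked (i : ℕ) : ∀ c : ℕ, c < V i → ∃ k : ℕ, 1 ≤ k ∧ 4 * k ≤ i + 1 ∧
    (∀ t : ℕ, 1 ≤ t → t < k → V (i - t) = V (i - t - 3 * k)) ∧ V (i - 3 * k) = c := by
  induction i using Nat.strong_induction_on with
  | _ i ih =>
  intro c hc
  by_cases hst : i % 56 = 17 ∧ 73 ≤ i
  · by_cases hc02 : c = 0 ∨ c = 2
    · exact V_local (by omega) (Or.inl ⟨(A_star i).2 hst, by omega⟩)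
    · obtain ⟨x, rfl⟩ : ∃ x, i = 73 + 56 * x := ⟨(i - 73) / 56, by omega⟩
      rw [V_st] at hc
      obtain ⟨d, hd, hdx⟩ : ∃ d, g d = c ∧ d < V x := by
        by_cases h1 : c = 1
        · refine ⟨0, by rw [h1]; rfl, ?_⟩
          unfold g at hc; split_ifs at hc <;> omega
        · refine ⟨c - 2, ?_, ?_⟩
          · unfold g; rw [if_neg (by omega)]; omega
          · unfold g at hc; split_ifs at hc <;> omega
      obtain ⟨k, k1, k4, hm, he⟩ := ih x (by omega) d hdx
      refine ⟨56 * k, by omega, by omega, ?_, ?_⟩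
      · intro t t1 t2
        by_cases ht : t % 56 = 0
        · obtain ⟨s, rfl⟩ : ∃ s, t = 56 * s := ⟨t / 56, by omega⟩
          have := hm s (by omega) (by omega)
          rw [show 73 + 56 * x - 56 * s = 73 + 56 * (x - s) by omega,
            show 73 + 56 * (x - s) - 3 * (56 * k) = 73 + 56 * (x - s - 3 * k) by omega, V_st, V_st,
            this]
        · rw [V_ns (n := 73 + 56 * x - t) (by omega),
            V_ns (n := 73 + 56 * x - t - 3 * (56 * k)) (by omega)]
          exact A_cong (by unfold Cong; omega)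
      · rw [show 73 + 56 * x - 3 * (56 * k) = 73 + 56 * (x - 3 * k) by omega, V_st, he, hd]
  · have h3 : A i ≠ 3 := fun h => hst ((A_star i).1 h)
    rw [V_ns hst] at hc
    have := A_lt i
    exact V_local (by omega) (Or.inr ⟨h3, hc⟩)

/-! ### `W` avoids powers `≥ 4/3` -/

theorem W_avoid (m : ℕ) (m1 : 1 ≤ m) (i : ℕ) : ∃ j : ℕ, 3 * j < m ∧ W (i + j) ≠ W (i + j + m) := by
  by_cases hm : m % 1008 = 0
  · obtain ⟨d, rfl⟩ : ∃ d, m = 1008 * d := ⟨m / 1008, by omega⟩
    by_cases hi : i ≤ 1666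
    · by_cases hi2 : 1666 < i + 336 * d
      · refine ⟨1666 - i, by omega, ?_⟩
        rw [show i + (1666 - i) = 1666 by omega]
        have e1 : W 1666 = 6 := by
          rw [W_ns (by omega), ← B_eq (by norm_num)]; decide +kernel
        have e2 : W (1666 + 1008 * d) = g (V (3 * d - 1)) + 4 := by
          rw [show 1666 + 1008 * d = 2002 + 336 * (3 * d - 1) by omega, W_st]
        have := g_ne2 (V (3 * d - 1))
        rw [e1, e2]; omega
      · have hd : d ∈ [1, 2, 3, 4] := by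
          have : d = 1 ∨ d = 2 ∨ d = 3 ∨ d = 4 := by omega
          rcases this with rfl | rfl | rfl | rfl <;> decide
        have h1 := List.all_eq_true.1 w_mis_mul d hd
        have hd4 : d ≤ 4 := by simp at hd; omega
        obtain ⟨j, hj, hsb⟩ := w_mis_use h1 (show i < 1667 - 336 * d by omega) (by omega)
        exact ⟨j, by omega, W_ne hsb⟩
    · obtain ⟨j, hj, hne⟩ := V_avoid d (by omega) ((i - 1667) / 336)
      refine ⟨2002 + 336 * ((i - 1667) / 336 + j) - i, by omega, ?_⟩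
      rw [show i + (2002 + 336 * ((i - 1667) / 336 + j) - i) = 2002 + 336 * ((i - 1667) / 336 + j) by
          omega,
        show 2002 + 336 * ((i - 1667) / 336 + j) + 1008 * d =
          2002 + 336 * ((i - 1667) / 336 + j + 3 * d) by ring, W_st, W_st]
      intro h
      exact hne (g_inj (by omega))
  · obtain ⟨i', hi', hc⟩ : ∃ i', i' < 2675 ∧
        (i = i' ∨ (1667 ≤ i ∧ 1667 ≤ i' ∧ i % 1008 = i' % 1008)) := by
      by_cases h : i < 2675
      · exact ⟨i, h, Or.inl rfl⟩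
      · exact ⟨1667 + (i - 1667) % 1008, by omega, Or.inr ⟨by omega, by omega, by omega⟩⟩
    obtain ⟨m', hm', hcm⟩ : ∃ m', m' < 2675 ∧
        (m = m' ∨ (2675 ≤ m ∧ 1667 ≤ m' ∧ m % 1008 = m' % 1008)) := by
      by_cases h : m < 2675
      · exact ⟨m, h, Or.inl rfl⟩
      · exact ⟨1667 + (m - 1667) % 1008, by omega, Or.inr ⟨by omega, by omega, by omega⟩⟩
    have h1 := List.all_eq_true.1 w_mis m' (List.mem_range.2 hm')
    rw [Bool.or_eq_true, beq_iff_eq] at h1
    obtain ⟨j, hj, hsb⟩ := w_mis_use (h1.resolve_left (by omega)) hi' (by omega)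
    refine ⟨j, by omega, W_ne ?_⟩
    rw [B_cong (a := i + j) (b := i' + j) (by unfold Cong; omega),
      B_cong (a := i + j + m) (b := i' + j + m') (by unfold Cong; omega)]
    exact hsb

theorem W_local {i c : ℕ} (hc : c < 7) (h : B i = 7 ∧ c ≠ 5 ∨ B i ≠ 7 ∧ c < B i) :
    ∃ n m : ℕ, 0 < m ∧ m < n ∧ n ≤ i + 1 ∧
    4 * m ≤ 3 * n ∧ (∀ t : ℕ, 1 ≤ t → t + m < n → W (i - t) = W (i - t - m)) ∧ W (i - m) = c := by
  obtain ⟨i', hi', hcg⟩ : ∃ i', i' < 2808 ∧
      (i = i' ∨ (1800 ≤ i ∧ 1800 ≤ i' ∧ i % 1008 = i' % 1008)) := by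
    by_cases h : i < 2808
    · exact ⟨i, h, Or.inl rfl⟩
    · exact ⟨1800 + (i - 1800) % 1008, by omega, Or.inr ⟨by omega, by omega, by omega⟩⟩
  have e0 : letter wb i' = B i := by
    rw [B_eq (by omega)]; exact B_cong (by unfold Cong; omega)
  have hlt := B_lt i
  have hmem : B i ∈ wcs c := by
    rw [wcs, List.mem_filter, List.mem_range]
    refine ⟨hlt, ?_⟩
    simp only [Bool.and_eq_true, decide_eq_true_iff, Bool.not_eq_true', Bool.and_eq_false_iff,
      beq_eq_false_iff_ne, ne_eq]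
    omega
  -- common conclusion
  have fin : ∀ m l : ℕ, l = (m + 2) / 3 → 0 < m → m + l ≤ i' + 1 → letter wb (i' - m) = c →
      (i = i' ∨ 1800 ≤ i ∧ 1800 ≤ i' ∧ i % 1008 = i' % 1008 ∧ m + l ≤ 120) →
      (∀ t : ℕ, 1 ≤ t → t < l → letter wb (i' - t - m) = letter wb (i' - t) ∧
        wst.testBit (i' - t - m) = false) →
      ∃ n m : ℕ, 0 < m ∧ m < n ∧ n ≤ i + 1 ∧ 4 * m ≤ 3 * n ∧
        (∀ t : ℕ, 1 ≤ t → t + m < n → W (i - t) = W (i - t - m)) ∧ W (i - m) = c := by
    intro m l hl hm h1 h2 hcg' h3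
    refine ⟨m + l, m, hm, by omega, by omega, by omega, ?_, ?_⟩
    · intro t t1 t2
      obtain ⟨h4, h5⟩ := h3 t t1 (by omega)
      rw [B_eq (by omega), B_eq (by omega)] at h4
      rw [wst_bit (by omega), decide_eq_false_iff_not] at h5
      rw [B_cong (a := i' - t - m) (b := i - t - m) (by unfold Cong; omega)] at h4 h5
      rw [B_cong (a := i' - t) (b := i - t) (by unfold Cong; omega)] at h4
      rw [W_of_B h5, W_of_B (by rw [← h4]; exact h5), h4]
    · rw [B_eq (by omega), B_cong (a := i' - m) (b := i - m) (by unfold Cong; omega)] at h2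
      rw [W_of_B (by omega), h2]
  by_cases hlo : i' < 1800
  · have hml : ∀ p ∈ wml, 1 ≤ p.2 ∧ 0 < p.1 ∧ p.2 = (p.1 + 2) / 3 := by decide +kernel
    have hb := List.all_eq_true.1 w_blocked1 c (List.mem_range.2 hc)
    obtain ⟨p, hp, h1, h2, h3⟩ := blocked_spec hb (fun p hp => (hml p hp).1) (Nat.zero_le _) hlo
      (by norm_num) (by rw [e0]; exact hmem)
    obtain ⟨-, p2, p3⟩ := hml p hp
    exact fin p.1 p.2 p3 p2 h1 h2 (by omega) h3
  · have hml : ∀ p ∈ wml2, 1 ≤ p.2 ∧ 0 < p.1 ∧ p.2 = (p.1 + 2) / 3 ∧ p.1 + p.2 ≤ 120 := by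
      decide +kernel
    have hb := List.all_eq_true.1 w_blocked2 c (List.mem_range.2 hc)
    obtain ⟨p, hp, h1, h2, h3⟩ := blocked_spec hb (fun p hp => (hml p hp).1) (by omega) hi'
      (by norm_num) (by rw [e0]; exact hmem)
    obtain ⟨-, p2, p3, p4⟩ := hml p hp
    exact fin p.1 p.2 p3 p2 h1 h2 (by omega) h3

/-- every smaller letter is blocked in `W` -/
theorem W_blocked (i c : ℕ) (hc : c < W i) : ∃ n m : ℕ, 0 < m ∧ m < n ∧ n ≤ i + 1 ∧
    4 * m ≤ 3 * n ∧ (∀ t : ℕ, 1 ≤ t → t + m < n → W (i - t) = W (i - t - m)) ∧ W (i - m) = c := by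
  by_cases hst : i % 336 = 322 ∧ 2002 ≤ i
  · by_cases hcl : c < 7 ∧ c ≠ 5
    · exact W_local hcl.1 (Or.inl ⟨(B_star i).2 hst, hcl.2⟩)
    · obtain ⟨x, rfl⟩ : ∃ x, i = 2002 + 336 * x := ⟨(i - 2002) / 336, by omega⟩
      rw [W_st] at hc
      obtain ⟨d, hd, hdx⟩ : ∃ d, g d + 4 = c ∧ d < V x := by
        by_cases h1 : c = 5
        · refine ⟨0, by rw [h1]; rfl, ?_⟩
          unfold g at hc; split_ifs at hc <;> omega
        · refine ⟨c - 6, ?_, ?_⟩
          · unfold g; rw [if_neg (by omega)]; omega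
          · unfold g at hc; split_ifs at hc <;> omega
      obtain ⟨k, k1, k4, hm, he⟩ := V_blocked x d hdx
      refine ⟨1344 * k, 1008 * k, by omega, by omega, by omega, by omega, ?_, ?_⟩
      · intro t t1 t2
        by_cases ht : t % 336 = 0
        · obtain ⟨s, rfl⟩ : ∃ s, t = 336 * s := ⟨t / 336, by omega⟩
          have := hm s (by omega) (by omega)
          rw [show 2002 + 336 * x - 336 * s = 2002 + 336 * (x - s) by omega,
            show 2002 + 336 * (x - s) - 1008 * k = 2002 + 336 * (x - s - 3 * k) by omega, W_st, W_st,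
            this]
        · rw [W_ns (n := 2002 + 336 * x - t) (by omega),
            W_ns (n := 2002 + 336 * x - t - 1008 * k) (by omega)]
          exact B_cong (by unfold Cong; omega)
      · rw [show 2002 + 336 * x - 1008 * k = 2002 + 336 * (x - 3 * k) by omega, W_st, he, hd]
  · have h3 : B i ≠ 7 := fun h => hst ((B_star i).1 h)
    rw [W_ns hst] at hc
    have := B_lt i
    exact W_local (by omega) (Or.inr ⟨h3, hc⟩)

/-! ### the least words -/

theorem W_avoids : Avoids 4 3 W := by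
  intro i n m hm hn hper
  obtain ⟨j, hj, hne⟩ := W_avoid m hm i
  exact hne (hper j (by omega))

theorem V_avoids : AvoidsExact 4 3 V := by
  intro i n m hm hn hper
  obtain ⟨j, hj, hne⟩ := V_avoid (m / 3) (by omega) i
  exact hne (by
    have := hper j (by omega)
    rwa [show i + j + m = i + j + 3 * (m / 3) by omega] at this)

theorem V_blk (i c : ℕ) (hc : c < V i) : ∃ n m : ℕ, 0 < m ∧ m < n ∧ n ≤ i + 1 ∧ 4 * m = 3 * n ∧
    (∀ t : ℕ, 1 ≤ t → t + m < n → V (i - t) = V (i - t - m)) ∧ V (i - m) = c := by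
  obtain ⟨k, k1, k4, hm, he⟩ := V_blocked i c hc
  exact ⟨4 * k, 3 * k, by omega, by omega, by omega, by omega,
    fun t t1 t2 => hm t t1 (by omega), he⟩

/-- `w_{≥4/3} = W` -/
theorem eq_W {w : ℕ → ℕ} (hw : Least 4 3 w) : w = W := hw.eq_of_blocked W_avoids W_blocked

/-- `w_{4/3} = V` -/
theorem eq_V {v : ℕ → ℕ} (hv : LeastExact 4 3 v) : v = V := hv.eq_of_blocked V_avoids V_blk

theorem least_W : Least 4 3 W :=
  ⟨W_avoids, fun _ hv hne => least_of_blocked W_blocked hv hne⟩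

theorem least_V : LeastExact 4 3 V :=
  ⟨V_avoids, fun _ hv hne => leastExact_of_blocked V_blk hv hne⟩

/-- the relation conjectured by Pudwell and Rowland -/
theorem relation (i : ℕ) : W (336 * i + 1666) = V (56 * i + 17) + 4 := by
  rcases Nat.eq_zero_or_pos i with rfl | hi
  · have e1 : W 1666 = 6 := by rw [W_ns (by omega), ← B_eq (by norm_num)]; decide +kernel
    have e2 : V 17 = 2 := by rw [V_ns (by omega), ← A_eq (by norm_num)]; decide +kernel
    rw [show 336 * 0 + 1666 = 1666 by norm_num, show 56 * 0 + 17 = 17 by norm_num, e1, e2]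
  · rw [show 336 * i + 1666 = 2002 + 336 * (i - 1) by omega,
      show 56 * i + 17 = 73 + 56 * (i - 1) by omega, W_st, V_st]

end Pool.Agent.LexPow.FT
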