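import Pool.Agent.LexPow.FourThirds

set_option autoImplicit false

/-!
# `w_{≥4/3}` is `56`-regular
-/

namespace Pool.Agent.LexPow.FT

open Planes

/-- the common period (`lcm (1008, 56 * 336)`) and preperiod -/
def PP : ℕ := 56448

/-- eventually periodic with period `PP` and preperiod `PP` -/
def EvP (p : ℕ → ℤ) : Prop := ∀ n, PP ≤ n → p (n + PP) = p n

/-- the spread of `V` with step 336 and start `a` -/
def F (a n : ℕ) : ℤ := if a ≤ n ∧ (n - a) % 336 = 0 then (V ((n - a) / 336) : ℤ) else 0

/-- indicator of a point -/
def del (j n : ℕ) : ℤ := if n = j then 1 else 0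

/-- indicator of a residue class -/
def res (j n : ℕ) : ℤ := if n % PP = j then 1 else 0

/-- generators -/
def G : Set (ℕ → ℤ) :=
  (F '' {2002, 473, 446, 445}) ∪ ((del '' {j | j < PP}) ∪ (res '' {j | j < PP}))

theorem G_fin : G.Finite := by
  refine Set.Finite.union ?_ (Set.Finite.union ((Set.finite_lt_nat PP).image _)
    ((Set.finite_lt_nat PP).image _))
  refine Set.Finite.image _ ?_
  exact (Set.toFinite _)

theorem evp_mem {p : ℕ → ℤ} (hp : EvP p) : p ∈ Submodule.span ℤ G := by
  have hpos : 0 < PP := by unfold PP; norm_num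
  -- the periodic part
  have e : p = (∑ j ∈ Finset.range PP, p (PP + j) • res j) +
      ∑ j ∈ Finset.range PP, (p j - p (PP + j)) • del j := by
    funext n
    rw [Pi.add_apply, Finset.sum_apply, Finset.sum_apply]
    simp only [Pi.smul_apply, smul_eq_mul, res, del, mul_ite, mul_one, mul_zero]
    rw [Finset.sum_ite_eq, if_pos (Finset.mem_range.2 (Nat.mod_lt _ hpos)), Finset.sum_ite_eq]
    by_cases hn : n < PP
    · rw [if_pos (Finset.mem_range.2 hn), Nat.mod_eq_of_lt hn]; ring
    · rw [if_neg (by rw [Finset.mem_range]; exact hn), add_zero]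
      have key : ∀ k r : ℕ, p (PP + r + k * PP) = p (PP + r) := by
        intro k r
        induction k with
        | zero => simp
        | succ k ih =>
          rw [show PP + r + (k + 1) * PP = (PP + r + k * PP) + PP by ring, hp _ (by omega), ih]
      have h1 := Nat.div_add_mod n PP
      have h2 : 1 ≤ n / PP := (Nat.one_le_div_iff hpos).2 (by omega)
      have h3 : n = PP + n % PP + (n / PP - 1) * PP := by
        obtain ⟨q, hq⟩ : ∃ q, n / PP = q + 1 := ⟨n / PP - 1, by omega⟩
        rw [hq] at h1 ⊢
        rw [Nat.add_sub_cancel]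
        calc n = PP * (q + 1) + n % PP := h1.symm
          _ = PP + n % PP + q * PP := by ring
      conv_lhs => rw [h3]
      exact key _ _
  rw [e]
  refine Submodule.add_mem _ ?_ ?_
  · exact Submodule.sum_mem _ fun j hj => Submodule.smul_mem _ _
      (Submodule.subset_span (Or.inr (Or.inr ⟨j, Finset.mem_range.1 hj, rfl⟩)))
  · exact Submodule.sum_mem _ fun j hj => Submodule.smul_mem _ _
      (Submodule.subset_span (Or.inr (Or.inl ⟨j, Finset.mem_range.1 hj, rfl⟩)))

/-- zero set of `V` -/
theorem V_zero_per {y : ℕ} (hy : 18 ≤ y) (k : ℕ) : V (y + 56 * k) = 0 ↔ V y = 0 := by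
  have key : ∀ n, V n = 0 ↔ A n = 0 := by
    intro n
    by_cases h : A n = 3
    · have := V_at_star h; omega
    · rw [V_of_A h]
  rw [key, key, A_cong (a := y + 56 * k) (b := y) (by unfold Cong; omega)]

theorem g_cast (v : ℕ) : ((g v : ℕ) : ℤ) = (v : ℤ) + 2 - (if v = 0 then 1 else 0) := by
  unfold g; split_ifs with h
  · subst h; norm_num
  · push_cast; ring

theorem evp_iter {p : ℕ → ℤ} (hp : EvP p) (n k : ℕ) (hn : PP ≤ n) : p (n + PP * k) = p n := by
  induction k with
  | zero => simp
  | succ k ih => rw [show n + PP * (k + 1) = (n + PP * k) + PP by ring, hp _ (by omega), ih]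

theorem W_regular : Regular 56 W := by
  refine regular_of_stable (by norm_num) G_fin ?_ ?_
  · rintro r hr f (⟨a, ha, rfl⟩ | ⟨j, hj, rfl⟩ | ⟨j, hj, rfl⟩)
    · -- sections of the spreads
      obtain ⟨a', ha', hG, haa⟩ : ∃ a', a' = (a + 24528) / 56 ∧ F a' ∈ G ∧ a ≤ 2002 := by
        refine ⟨(a + 24528) / 56, rfl, ?_, ?_⟩
        · rcases ha with rfl | rfl | rfl | rfl
          · exact Or.inl ⟨473, Or.inr (Or.inl rfl), rfl⟩
          · exact Or.inl ⟨446, Or.inr (Or.inr (Or.inl rfl)), rfl⟩
          · exact Or.inl ⟨445, Or.inr (Or.inr (Or.inr rfl)), rfl⟩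
          · exact Or.inl ⟨445, Or.inr (Or.inr (Or.inr rfl)), rfl⟩
        · rcases ha with rfl | rfl | rfl | rfl <;> norm_num
      have hsplit : (fun n => F a (56 * n + r)) =
          (if r = (a + 24528) % 56 then (1 : ℤ) else 0) • F a' +
            fun n => F a (56 * n + r) - (if r = (a + 24528) % 56 then (1 : ℤ) else 0) * F a' n := by
        funext n
        simp only [Pi.add_apply, Pi.smul_apply, smul_eq_mul]; ring
      rw [hsplit]
      refine Submodule.add_mem _ (Submodule.smul_mem _ _ (Submodule.subset_span hG)) (evp_mem ?_)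
      -- the difference is eventually periodic
      have form : ∀ n, PP ≤ n →
          F a (56 * n + r) - (if r = (a + 24528) % 56 then (1 : ℤ) else 0) * F a' n =
          if (56 * n + r - a) % 336 = 0 then
            (if (56 * n + r - a) / 336 % 56 = 17 then
              2 - (if V (((56 * n + r - a) / 336 - 73) / 56) = 0 then (1 : ℤ) else 0)
            else (A ((56 * n + r - a) / 336) : ℤ)) else 0 := by
        intro n hn
        unfold PP at hn
        by_cases h1 : (56 * n + r - a) % 336 = 0
        · rw [if_pos h1]
          obtain ⟨N, hN⟩ : ∃ N, 56 * n + r - a = 336 * N := ⟨(56 * n + r - a) / 336, by omega⟩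
          have e1 : F a (56 * n + r) = (V N : ℤ) := by
            rw [F, if_pos ⟨by omega, h1⟩]; congr 2; omega
          have e0 : (56 * n + r - a) / 336 = N := by omega
          rw [e0, e1]
          by_cases h2 : N % 56 = 17
          · rw [if_pos h2]
            obtain ⟨y, hy⟩ : ∃ y, N = 73 + 56 * y := ⟨(N - 73) / 56, by omega⟩
            have e2 : r = (a + 24528) % 56 := by omega
            have e3 : F a' n = (V y : ℤ) := by
              rw [F, if_pos ⟨by omega, by omega⟩]; congr 2; omega
            rw [if_pos e2, e3, hy, V_st, g_cast, show (73 + 56 * y - 73) / 56 = y by omega]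
            ring
          · rw [if_neg h2]
            have e2 : (if r = (a + 24528) % 56 then (1 : ℤ) else 0) * F a' n = 0 := by
              by_cases h3 : r = (a + 24528) % 56
              · have : F a' n = 0 := by
                  rw [F, if_neg]
                  rintro ⟨h4, h5⟩
                  omega
                rw [this, mul_zero]
              · rw [if_neg h3, zero_mul]
            rw [e2, V_ns (by omega), sub_zero]
        · rw [if_neg h1]
          have e1 : F a (56 * n + r) = 0 := by
            rw [F, if_neg]; rintro ⟨h4, h5⟩; exact h1 h5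
          have e2 : (if r = (a + 24528) % 56 then (1 : ℤ) else 0) * F a' n = 0 := by
            by_cases h3 : r = (a + 24528) % 56
            · have : F a' n = 0 := by
                rw [F, if_neg]
                rintro ⟨h4, h5⟩
                omega
              rw [this, mul_zero]
            · rw [if_neg h3, zero_mul]
          rw [e1, e2, sub_zero]
      intro n hn
      show F a (56 * (n + PP) + r) - (if r = (a + 24528) % 56 then (1 : ℤ) else 0) * F a' (n + PP) =
        F a (56 * n + r) - (if r = (a + 24528) % 56 then (1 : ℤ) else 0) * F a' n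
      rw [form n hn, form (n + PP) (by omega)]
      unfold PP at hn ⊢
      by_cases h1 : (56 * n + r - a) % 336 = 0
      · obtain ⟨N, hN⟩ : ∃ N, 56 * n + r - a = 336 * N := ⟨(56 * n + r - a) / 336, by omega⟩
        have e1 : 56 * (n + 56448) + r - a = 336 * (N + 9408) := by omega
        rw [hN, e1, if_pos (show 336 * (N + 9408) % 336 = 0 by omega),
          if_pos (show 336 * N % 336 = 0 by omega), show 336 * N / 336 = N by omega,
          show 336 * (N + 9408) / 336 = N + 9408 by omega]
        by_cases h2 : N % 56 = 17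
        · rw [if_pos h2, if_pos (show (N + 9408) % 56 = 17 by omega),
            show (N + 9408 - 73) / 56 = (N - 73) / 56 + 56 * 3 by omega]
          have := V_zero_per (y := (N - 73) / 56) (by omega) 3
          by_cases h3 : V ((N - 73) / 56) = 0
          · rw [if_pos h3, if_pos (this.2 h3)]
          · rw [if_neg h3, if_neg (fun h => h3 (this.1 h))]
        · rw [if_neg h2, if_neg (show ¬ (N + 9408) % 56 = 17 by omega), A_cong (a := N + 9408) (b := N) (by unfold Cong; omega)]
      · rw [if_neg h1, if_neg (by omega)]
    · refine evp_mem fun n hn => ?_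
      have hj' : j < PP := hj
      unfold PP at hn hj' ⊢
      simp only [del]
      rw [if_neg (by omega), if_neg (by omega)]
    · refine evp_mem fun n hn => ?_
      simp only [res]
      rw [show 56 * (n + PP) + r = 56 * n + r + 56 * PP by ring, Nat.add_mul_mod_self_right]
  · have e : (fun n => ((W n : ℕ) : ℤ)) = F 2002 + fun n => ((W n : ℕ) : ℤ) - F 2002 n := by
      funext n; simp only [Pi.add_apply]; ring
    rw [e]
    refine Submodule.add_mem _ (Submodule.subset_span (Or.inl ⟨2002, Or.inl rfl, rfl⟩))
      (evp_mem ?_)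
    intro n hn
    unfold PP at hn ⊢
    show ((W (n + 56448) : ℕ) : ℤ) - F 2002 (n + 56448) = ((W n : ℕ) : ℤ) - F 2002 n
    by_cases h : n % 336 = 322
    · obtain ⟨y, rfl⟩ : ∃ y, n = 2002 + 336 * y := ⟨(n - 2002) / 336, by omega⟩
      have e1 : F 2002 (2002 + 336 * y) = (V y : ℤ) := by
        rw [F, if_pos ⟨by omega, by omega⟩]; congr 2; omega
      have e2 : F 2002 (2002 + 336 * y + 56448) = (V (y + 168) : ℤ) := by
        rw [F, if_pos ⟨by omega, by omega⟩]; congr 2; omega
      rw [e1, e2, W_st, show 2002 + 336 * y + 56448 = 2002 + 336 * (y + 168) by ring, W_st]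
      push_cast
      rw [g_cast, g_cast]
      have := V_zero_per (y := y) (by omega) 3
      rw [show y + 56 * 3 = y + 168 by ring] at this
      by_cases h3 : V y = 0
      · rw [if_pos h3, if_pos (this.2 h3)]; ring
      · rw [if_neg h3, if_neg (fun h => h3 (this.1 h))]; ring
    · have e1 : F 2002 n = 0 := by rw [F, if_neg]; omega
      have e2 : F 2002 (n + 56448) = 0 := by rw [F, if_neg]; omega
      rw [e1, e2, W_ns (by omega), W_ns (by omega),
        B_cong (a := n + 56448) (b := n) (by unfold Cong; omega)]

end Pool.Agent.LexPow.FT
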