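import Pool.Agent.LexPow.Base

set_option autoImplicit false

/-!
# Words given by bit planes, and vectorised finite checks

A finite word is stored as a list of natural numbers (bit planes): bit `n` of the `k`-th number is the
`k`-th binary digit of the letter at position `n`.  Comparisons of the word with a shift of itself
are done for all positions at once by bit operations.
-/

namespace Pool.Agent.LexPow.Planes

/-- the letter at position `n` -/
def letter : List ℕ → ℕ → ℕ
  | [], _ => 0
  | b :: bs, n => (b.testBit n).toNat + 2 * letter bs n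

/-- bit `i` is set iff the letters at `i` and `i + m` are different -/
def diff : List ℕ → ℕ → ℕ
  | [], _ => 0
  | b :: bs, m => (b ^^^ (b >>> m)) ||| diff bs m

theorem testBit_diff (bs : List ℕ) (m i : ℕ) :
    (diff bs m).testBit i = decide (letter bs i ≠ letter bs (i + m)) := by
  induction bs with
  | nil => simp [diff, letter]
  | cons b bs ih =>
    rw [diff, Nat.testBit_or, Nat.testBit_xor, Nat.testBit_shiftRight, ih, letter, letter,
      show m + i = i + m by ring]
    cases h1 : b.testBit i <;> cases h2 : b.testBit (i + m) <;>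
      simp only [Bool.toNat_true, Bool.toNat_false, Bool.false_or, Bool.true_or, Bool.xor_true,
        Bool.xor_false, Bool.xor_self, Bool.not_false, Bool.not_true] <;>
      (first | (rw [decide_eq_decide]; omega) | (symm; rw [decide_eq_true_iff]; omega))

/-- bit `n < L` is set iff the letter at `n` is `c` (`full = 2 ^ L - 1`) -/
def eqm (full : ℕ) : List ℕ → ℕ → ℕ
  | [], c => if c = 0 then full else 0
  | b :: bs, c => (if c % 2 = 1 then b else full ^^^ b) &&& eqm full bs (c / 2)

theorem testBit_eqm (L : ℕ) (bs : List ℕ) (c n : ℕ) (hn : n < L) :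
    (eqm (2 ^ L - 1) bs c).testBit n = decide (letter bs n = c) := by
  induction bs generalizing c with
  | nil =>
    rw [eqm, letter]
    by_cases hc : c = 0
    · subst hc; simp [Nat.testBit_two_pow_sub_one, hn]
    · rw [if_neg hc, Nat.zero_testBit]; symm; rw [decide_eq_false_iff_not]; omega
  | cons b bs ih =>
    rw [eqm, Nat.testBit_and, ih, letter]
    by_cases h1 : c % 2 = 1
    · rw [if_pos h1]
      cases hb : b.testBit n
      · rw [Bool.false_and]; symm; rw [decide_eq_false_iff_not]; simp; omega
      · rw [Bool.true_and, decide_eq_decide]; simp; omega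
    · rw [if_neg h1, Nat.testBit_xor, Nat.testBit_two_pow_sub_one]
      cases hb : b.testBit n
      · simp only [hn, decide_true, Bool.true_and, Bool.toNat_false, Bool.xor_false]
        rw [decide_eq_decide]; omega
      · simp only [hn, decide_true, Bool.not_true, Bool.false_and, Bool.toNat_true, Bool.xor_true]
        symm; rw [decide_eq_false_iff_not]; omega

/-- `OR` of shifts `0, ..., r` (`c` is the number of shifts covered so far) -/
def cov : ℕ → ℕ → ℕ → ℕ → ℕ
  | 0, S, _, _ => S
  | f + 1, S, c, r => if r = 0 then S else cov f (S ||| (S >>> (min c r))) (c + min c r) (r - min c r)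

theorem cov_spec (f S c r i : ℕ) (h : (cov f S c r).testBit i = true) :
    ∃ j ≤ r, S.testBit (i + j) = true := by
  induction f generalizing S c r with
  | zero => exact ⟨0, Nat.zero_le _, h⟩
  | succ f ih =>
    rw [cov] at h
    split_ifs at h with hr
    · exact ⟨0, Nat.zero_le _, h⟩
    · obtain ⟨j, hj, hb⟩ := ih _ _ _ h
      rw [Nat.testBit_or, Bool.or_eq_true, Nat.testBit_shiftRight] at hb
      have hm : min c r ≤ r := min_le_right _ _
      rcases hb with hb | hb
      · exact ⟨j, by omega, hb⟩
      · exact ⟨j + min c r, by omega, by rwa [show min c r + (i + j) = i + (j + min c r) by ring] at hb⟩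

/-- `AND` of shifts -/
def con : ℕ → ℕ → ℕ → ℕ → ℕ
  | 0, T, _, r => if r = 0 then T else 0
  | f + 1, T, c, r => if r = 0 then T else con f (T &&& (T >>> (min c r))) (c + min c r) (r - min c r)

theorem con_spec (S : ℕ) (f T c r : ℕ)
    (hT : ∀ i, T.testBit i = true → ∀ j < c, S.testBit (i + j) = true) (i : ℕ)
    (h : (con f T c r).testBit i = true) : ∀ j < c + r, S.testBit (i + j) = true := by
  induction f generalizing T c r with
  | zero =>
    rw [con] at h
    split_ifs at h with hr
    · subst hr; exact hT i h
    · rw [Nat.zero_testBit] at h; exact absurd h (by decide)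
  | succ f ih =>
    rw [con] at h
    split_ifs at h with hr
    · subst hr; exact hT i h
    · have hm : min c r ≤ r := min_le_right _ _
      have hm' : min c r ≤ c := min_le_left _ _
      have := ih (T &&& (T >>> (min c r))) (c + min c r) (r - min c r) (by
        intro i' hi' j hj
        rw [Nat.testBit_and, Bool.and_eq_true, Nat.testBit_shiftRight] at hi'
        by_cases hjc : j < c
        · exact hT i' hi'.1 j hjc
        · have := hT (i' + min c r) (by rw [show i' + min c r = min c r + i' by ring]; exact hi'.2)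
            (j - min c r) (by omega)
          rwa [show i' + min c r + (j - min c r) = i' + j by omega] at this) h
      intro j hj
      exact this j (by omega)

/-- positions `i` at which the letters at `i` and `i + m` are surely different: different, and not a
star letter (mask `st`) against a compatible letter (mask `fv`) -/
def sureD (bs : List ℕ) (st fv m : ℕ) : ℕ :=
  diff bs m ^^^ (diff bs m &&& ((st &&& (fv >>> m)) ||| (fv &&& (st >>> m))))

theorem sureD_spec {bs : List ℕ} {st fv m i : ℕ} (h : (sureD bs st fv m).testBit i = true) :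
    letter bs i ≠ letter bs (i + m) ∧ ¬ (st.testBit i = true ∧ fv.testBit (i + m) = true) ∧
      ¬ (fv.testBit i = true ∧ st.testBit (i + m) = true) := by
  rw [sureD, Nat.testBit_xor, Nat.testBit_and, Nat.testBit_or, Nat.testBit_and, Nat.testBit_and,
    Nat.testBit_shiftRight, Nat.testBit_shiftRight, testBit_diff, show m + i = i + m by ring] at h
  by_cases hd : letter bs i ≠ letter bs (i + m)
  · refine ⟨hd, ?_, ?_⟩
    · rintro ⟨h1, h2⟩
      rw [h1, h2] at h; simp [hd] at h
    · rintro ⟨h1, h2⟩
      rw [h1, h2] at h; simp [hd] at h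
  · simp [hd] at h

/-- every window of `r + 1` positions starting before `R` contains a sure difference -/
def mis (bs : List ℕ) (st fv R m r : ℕ) : Bool :=
  (cov 64 (sureD bs st fv m) 1 r) % 2 ^ R == 2 ^ R - 1

theorem mis_spec {bs : List ℕ} {st fv R m r : ℕ} (h : mis bs st fv R m r = true) {i : ℕ}
    (hi : i < R) : ∃ j ≤ r, letter bs (i + j) ≠ letter bs (i + j + m) ∧
      ¬ (st.testBit (i + j) = true ∧ fv.testBit (i + j + m) = true) ∧
      ¬ (fv.testBit (i + j) = true ∧ st.testBit (i + j + m) = true) := by
  rw [mis, beq_iff_eq] at h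
  have h1 : (cov 64 (sureD bs st fv m) 1 r).testBit i = true := by
    have h2 := Nat.testBit_mod_two_pow (cov 64 (sureD bs st fv m) 1 r) R i
    rw [h, Nat.testBit_two_pow_sub_one] at h2
    simpa [hi] using h2.symm
  obtain ⟨j, hj, hb⟩ := cov_spec _ _ _ _ _ h1
  exact ⟨j, hj, sureD_spec hb⟩

/-- positions `p < L'` at which the letters at `p` and `p + m` are equal and `p` is not a star -/
def sureE (bs : List ℕ) (st L' m : ℕ) : ℕ := (2 ^ L' - 1) ^^^ ((diff bs m ||| st) % 2 ^ L')

theorem sureE_spec {bs : List ℕ} {st L' m p : ℕ} (h : (sureE bs st L' m).testBit p = true) :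
    p < L' ∧ letter bs p = letter bs (p + m) ∧ st.testBit p = false := by
  rw [sureE, Nat.testBit_xor, Nat.testBit_two_pow_sub_one, Nat.testBit_mod_two_pow, Nat.testBit_or,
    testBit_diff] at h
  by_cases hp : p < L'
  · by_cases hd : letter bs p = letter bs (p + m)
    · refine ⟨hp, hd, ?_⟩
      cases hs : st.testBit p
      · rfl
      · simp [hp, hs] at h
    · simp [hp, hd] at h
  · simp [hp] at h

/-- positions `q` such that the letters at `q, ..., q + l - 2` agree with the letters `m` further on -/
def runm (bs : List ℕ) (st L' m l : ℕ) : ℕ :=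
  if l ≤ 1 then 2 ^ L' - 1 else con 64 (sureE bs st L' m) 1 (l - 2)

theorem runm_spec {bs : List ℕ} {st L' m l q : ℕ} (h : (runm bs st L' m l).testBit q = true) :
    ∀ j, j + 1 < l → q + j < L' ∧ letter bs (q + j) = letter bs (q + j + m) ∧
      st.testBit (q + j) = false := by
  intro j hj
  rw [runm, if_neg (by omega)] at h
  have := con_spec (sureE bs st L' m) 64 (sureE bs st L' m) 1 (l - 2) (fun i hi j hj => by
    have : j = 0 := by omega
    subst this; simpa using hi) q h j (by omega)
  exact sureE_spec this

/-- positions `i` at which the letter `c` (mask `Pc`) is blocked by a repetition of period `m` in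
which `l` letters are repeated -/
def blkm (bs : List ℕ) (st L' Pc m l : ℕ) : ℕ :=
  (runm bs st L' m l &&& (Pc >>> (l - 1))) <<< (l - 1 + m)

theorem blkm_spec {bs : List ℕ} {st L' Pc m l i : ℕ} (hl : 1 ≤ l)
    (h : (blkm bs st L' Pc m l).testBit i = true) :
    m + l ≤ i + 1 ∧ Pc.testBit (i - m) = true ∧
    (∀ t : ℕ, 1 ≤ t → t < l → letter bs (i - t - m) = letter bs (i - t) ∧
      st.testBit (i - t - m) = false) := by
  rw [blkm, Nat.testBit_shiftLeft, Bool.and_eq_true, decide_eq_true_iff, Nat.testBit_and,
    Bool.and_eq_true, Nat.testBit_shiftRight] at h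
  obtain ⟨h1, h2, h3⟩ := h
  refine ⟨by omega, by rwa [show l - 1 + (i - (l - 1 + m)) = i - m by omega] at h3, ?_⟩
  intro t t1 t2
  obtain ⟨-, e1, e2⟩ := runm_spec h2 (l - 1 - t) (by omega)
  rw [show i - (l - 1 + m) + (l - 1 - t) = i - t - m by omega] at e1 e2
  rw [show i - t - m + m = i - t by omega] at e1
  exact ⟨e1, e2⟩

/-- `OR` of the masks of blocked positions over a list of pairs `(m, l)` -/
def blk (bs : List ℕ) (st L' Pc : ℕ) (ml : List (ℕ × ℕ)) : ℕ :=
  ml.foldr (fun p acc => blkm bs st L' Pc p.1 p.2 ||| acc) 0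

theorem blk_spec {bs : List ℕ} {st L' Pc : ℕ} {ml : List (ℕ × ℕ)} {i : ℕ}
    (h : (blk bs st L' Pc ml).testBit i = true) :
    ∃ p ∈ ml, (blkm bs st L' Pc p.1 p.2).testBit i = true := by
  induction ml with
  | nil => simp [blk] at h
  | cons p ml ih =>
    rw [blk, List.foldr_cons, Nat.testBit_or, Bool.or_eq_true] at h
    rcases h with h | h
    · exact ⟨p, List.mem_cons_self, h⟩
    · obtain ⟨q, hq, hb⟩ := ih h
      exact ⟨q, List.mem_cons_of_mem _ hq, hb⟩

/-- positions with a letter in the list `cs` -/
def anym (full : ℕ) (bs : List ℕ) (cs : List ℕ) : ℕ :=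
  cs.foldr (fun c acc => eqm full bs c ||| acc) 0

theorem anym_spec {L : ℕ} {bs : List ℕ} {cs : List ℕ} {n : ℕ} (hn : n < L)
    (h : letter bs n ∈ cs) : (anym (2 ^ L - 1) bs cs).testBit n = true := by
  induction cs with
  | nil => simp at h
  | cons c cs ih =>
    rw [anym, List.foldr_cons, Nat.testBit_or, Bool.or_eq_true]
    rcases List.mem_cons.1 h with h | h
    · left; rw [testBit_eqm L bs c n hn, h]; simp
    · right; exact ih h

/-- all positions in `[lo, hi)` with a letter in `cs` are blocked for the letter `c` -/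
def blocked (L : ℕ) (bs : List ℕ) (st L' : ℕ) (ml : List (ℕ × ℕ)) (lo hi c : ℕ) (cs : List ℕ) :
    Bool :=
  let need := (anym (2 ^ L - 1) bs cs % 2 ^ hi) >>> lo
  let B := blk bs st L' (eqm (2 ^ L - 1) bs c) ml >>> lo
  (need &&& B) == need

theorem blocked_spec {L : ℕ} {bs : List ℕ} {st L' : ℕ} {ml : List (ℕ × ℕ)} {lo hi c : ℕ}
    {cs : List ℕ} (h : blocked L bs st L' ml lo hi c cs = true) (hml : ∀ p ∈ ml, 1 ≤ p.2)
    {i : ℕ} (h1 : lo ≤ i) (h2 : i < hi) (h3 : hi ≤ L) (hc : letter bs i ∈ cs) :
    ∃ p ∈ ml, p.1 + p.2 ≤ i + 1 ∧ letter bs (i - p.1) = c ∧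
    (∀ t : ℕ, 1 ≤ t → t < p.2 → letter bs (i - t - p.1) = letter bs (i - t) ∧
      st.testBit (i - t - p.1) = false) := by
  rw [blocked] at h
  simp only [beq_iff_eq] at h
  have hb : ((blk bs st L' (eqm (2 ^ L - 1) bs c) ml) >>> lo).testBit (i - lo) = true := by
    have h4 := congrArg (fun x => x.testBit (i - lo)) h
    simp only [Nat.testBit_and, Nat.testBit_shiftRight, Nat.testBit_mod_two_pow] at h4
    rw [show lo + (i - lo) = i by omega, anym_spec (by omega) hc] at h4
    simp only [h2, decide_true, Bool.true_and] at h4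
    rw [Nat.testBit_shiftRight, show lo + (i - lo) = i by omega]
    exact h4
  rw [Nat.testBit_shiftRight, show lo + (i - lo) = i by omega] at hb
  obtain ⟨p, hp, hpb⟩ := blk_spec hb
  obtain ⟨e1, e2, e3⟩ := blkm_spec (hml p hp) hpb
  refine ⟨p, hp, e1, ?_, e3⟩
  rw [testBit_eqm L bs c _ (by omega), decide_eq_true_iff] at e2
  exact e2

/-- reduction of a position into the first period -/
def red (p0 P n : ℕ) : ℕ := if n < p0 + P then n else p0 + (n - p0) % P

/-- the planes are periodic from `p0` on with period `P`, up to `L` -/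
def perio (bs : List ℕ) (p0 P L : ℕ) : Bool :=
  bs.all fun b => (b >>> p0) % 2 ^ (L - p0 - P) == (b >>> (p0 + P)) % 2 ^ (L - p0 - P)

theorem letter_per {bs : List ℕ} {p0 P L : ℕ} (h : perio bs p0 P L = true) {n : ℕ} (h0 : p0 ≤ n)
    (hn : n + P < L) : letter bs (n + P) = letter bs n := by
  induction bs with
  | nil => rfl
  | cons b bs ih =>
    rw [perio, List.all_cons, Bool.and_eq_true, beq_iff_eq] at h
    rw [letter, letter, ih h.2]
    have h4 := congrArg (fun x => x.testBit (n - p0)) h.1
    simp only [Nat.testBit_shiftRight, Nat.testBit_mod_two_pow] at h4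
    rw [show p0 + (n - p0) = n by omega, show p0 + P + (n - p0) = n + P by omega] at h4
    have h5 : n - p0 < L - p0 - P := by omega
    simp only [h5, decide_true, Bool.true_and] at h4
    rw [h4]

theorem letter_red {bs : List ℕ} {p0 P L : ℕ} (h : perio bs p0 P L = true) (hP : 0 < P) {n : ℕ}
    (hn : n < L) : letter bs n = letter bs (red p0 P n) := by
  induction n using Nat.strong_induction_on with
  | _ n ih =>
  by_cases h1 : n < p0 + P
  · rw [red, if_pos h1]
  · have e1 : letter bs n = letter bs (n - P) := by
      have := letter_per h (n := n - P) (by omega) (by omega)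
      rwa [show n - P + P = n by omega] at this
    rw [e1, ih (n - P) (by omega) (by omega)]
    congr 1
    rw [red, red, if_neg h1]
    split_ifs with h2
    · have : (n - p0) % P = n - P - p0 := by
        rw [show n - p0 = (n - P - p0) + P by omega, Nat.add_mod_right, Nat.mod_eq_of_lt (by omega)]
      omega
    · congr 1
      rw [show n - p0 = (n - P - p0) + P by omega, Nat.add_mod_right]

/-- positions which are equal, or both in the periodic part and congruent -/
def Cong (p0 P a b : ℕ) : Prop := a = b ∨ (p0 ≤ a ∧ p0 ≤ b ∧ a % P = b % P)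

theorem red_cong {p0 P a b : ℕ} (hP : 0 < P) (h : Cong p0 P a b) : red p0 P a = red p0 P b := by
  rcases h with rfl | ⟨ha, hb, hab⟩
  · rfl
  · have key : ∀ n, p0 ≤ n → red p0 P n = p0 + (n - p0) % P := by
      intro n hn
      rw [red]; split_ifs with h
      · rw [Nat.mod_eq_of_lt (by omega)]; omega
      · rfl
    rw [key a ha, key b hb]
    congr 1
    have h1 : (a - p0) ≡ (b - p0) [MOD P] := by
      have : a - p0 + p0 ≡ b - p0 + p0 [MOD P] := by
        rw [Nat.sub_add_cancel ha, Nat.sub_add_cancel hb]; exact hab
      exact Nat.ModEq.add_right_cancel' p0 this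
    exact h1

end Pool.Agent.LexPow.Planes
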