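import Pool.Agent.LexPow.Base

set_option autoImplicit false

/-!
# The word `w_{≥3/2}`
-/

namespace Pool.Agent.LexPow
namespace TH

/-- the period 12 pattern of `w_{3/2}`; special positions `≡ 5 (mod 6)` carry the value 2 -/
def P (n : ℕ) : ℕ :=
  match n % 12 with
  | 0 => 0 | 1 => 0 | 2 => 1 | 3 => 1 | 4 => 0 | 5 => 2
  | 6 => 1 | 7 => 0 | 8 => 0 | 9 => 1 | 10 => 1 | _ => 2

/-- the lexicographically least word avoiding `3/2`-powers (Rowland–Shallit) -/
def U (n : ℕ) : ℕ := if h : n % 6 = 5 then U (n / 6) + 2 else P n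
termination_by n
decreasing_by omega

/-- the period 10 pattern of `w_{≥3/2}`; special positions `≡ 4 (mod 5)` carry the value 3 -/
def Q (n : ℕ) : ℕ :=
  match n % 10 with
  | 0 => 0 | 1 => 1 | 2 => 2 | 3 => 0 | 4 => 3
  | 5 => 1 | 6 => 0 | 7 => 2 | 8 => 1 | _ => 3

/-- the explicit form of `w_{≥3/2}` -/
def W (n : ℕ) : ℕ := if n % 5 = 4 then U (n / 5) + 3 else Q n

theorem P_mod {a b : ℕ} (h : a % 12 = b % 12) : P a = P b := by unfold P; rw [h]

theorem Q_mod {a b : ℕ} (h : a % 10 = b % 10) : Q a = Q b := by unfold Q; rw [h]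

theorem U_sp (a : ℕ) : U (6 * a + 5) = U a + 2 := by
  rw [U, dif_pos (by omega)]; congr 2; omega

theorem U_sp' {n : ℕ} (h : n % 6 = 5) : U n = U (n / 6) + 2 := by
  rw [U, dif_pos h]

theorem U_ns {n : ℕ} (h : n % 6 ≠ 5) : U n = P n := by
  rw [U, dif_neg h]

theorem W_sp (a : ℕ) : W (5 * a + 4) = U a + 3 := by
  unfold W; rw [if_pos (by omega)]; congr 2; omega

theorem W_sp' {n : ℕ} (h : n % 5 = 4) : W n = U (n / 5) + 3 := by
  unfold W; rw [if_pos h]

theorem W_ns {n : ℕ} (h : n % 5 ≠ 4) : W n = Q n := by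
  unfold W; rw [if_neg h]

/-- `P` separates special from nonspecial positions, and two nonspecial positions -/
theorem U_ne {a b : ℕ} (h : P a ≠ P b) : U a ≠ U b := by
  have hP : ∀ x : ℕ, (x % 6 = 5 → P x = 2) ∧ (x % 6 ≠ 5 → P x ≤ 1) := by
    intro x
    have h12 : x % 12 < 12 := Nat.mod_lt _ (by norm_num)
    have key : ∀ r : ℕ, r < 12 → (r % 6 = 5 → P r = 2) ∧ (r % 6 ≠ 5 → P r ≤ 1) := by decide
    have := key (x % 12) h12
    rw [P_mod (a := x % 12) (b := x) (by omega), show x % 12 % 6 = x % 6 by omega] at this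
    exact this
  by_cases ha : a % 6 = 5 <;> by_cases hb : b % 6 = 5
  · exact absurd ((hP a).1 ha |>.trans ((hP b).1 hb).symm) h
  · rw [U_sp' ha, U_ns hb]; have := (hP b).2 hb; omega
  · rw [U_ns ha, U_sp' hb]; have := (hP a).2 ha; omega
  · rw [U_ns ha, U_ns hb]; exact h

theorem W_ne {a b : ℕ} (h : Q a ≠ Q b) : W a ≠ W b := by
  have hQ : ∀ x : ℕ, (x % 5 = 4 → Q x = 3) ∧ (x % 5 ≠ 4 → Q x ≤ 2) := by
    intro x
    have h10 : x % 10 < 10 := Nat.mod_lt _ (by norm_num)
    have key : ∀ r : ℕ, r < 10 → (r % 5 = 4 → Q r = 3) ∧ (r % 5 ≠ 4 → Q r ≤ 2) := by decide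
    have := key (x % 10) h10
    rw [Q_mod (a := x % 10) (b := x) (by omega), show x % 10 % 5 = x % 5 by omega] at this
    exact this
  by_cases ha : a % 5 = 4 <;> by_cases hb : b % 5 = 4
  · exact absurd ((hQ a).1 ha |>.trans ((hQ b).1 hb).symm) h
  · rw [W_sp' ha, W_ns hb]; have := (hQ b).2 hb; omega
  · rw [W_ns ha, W_sp' hb]; have := (hQ a).2 ha; omega
  · rw [W_ns ha, W_ns hb]; exact h

/-- `U` avoids `3/2`-powers -/
theorem U_avoid (h : ℕ) : 1 ≤ h → ∀ i : ℕ, ∃ j < h, U (i + j) ≠ U (i + j + 2 * h) := by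
  induction h using Nat.strong_induction_on with
  | _ h ih =>
  intro h1 i
  by_cases h6 : h % 6 = 0
  · obtain ⟨g, rfl⟩ : ∃ g, h = 6 * g := ⟨h / 6, by omega⟩
    -- first special position `≥ i` is `6 * a + 5`, with `a = i / 6`
    obtain ⟨j, hj, hne⟩ := ih g (by omega) (by omega) (i / 6)
    refine ⟨6 * (i / 6 + j) + 5 - i, by omega, ?_⟩
    have e1 : i + (6 * (i / 6 + j) + 5 - i) = 6 * (i / 6 + j) + 5 := by omega
    have e2 : 6 * (i / 6 + j) + 5 + 2 * (6 * g) = 6 * (i / 6 + j + 2 * g) + 5 := by omega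
    rw [e1, e2, U_sp, U_sp]; omega
  · have key1 : ∀ r : ℕ, r < 12 → ∀ g : ℕ, g < 6 → g ≠ 0 →
        ∃ j : ℕ, j < g ∧ P (r + j) ≠ P (r + j + 2 * g) := by decide
    have key2 : ∀ r : ℕ, r < 12 → ∀ g : ℕ, g < 6 → g ≠ 0 →
        ∃ j : ℕ, j < 6 ∧ P (r + j) ≠ P (r + j + 2 * g) := by decide
    by_cases hlt : h < 6
    · obtain ⟨j, hj, hne⟩ := key1 (i % 12) (Nat.mod_lt _ (by norm_num)) h hlt (by omega)
      refine ⟨j, hj, U_ne ?_⟩
      rwa [P_mod (a := i % 12 + j) (b := i + j) (by omega),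
        P_mod (a := i % 12 + j + 2 * h) (b := i + j + 2 * h) (by omega)] at hne
    · obtain ⟨j, hj, hne⟩ := key2 (i % 12) (Nat.mod_lt _ (by norm_num)) (h % 6)
        (Nat.mod_lt _ (by norm_num)) h6
      refine ⟨j, by omega, U_ne ?_⟩
      rwa [P_mod (a := i % 12 + j) (b := i + j) (by omega),
        P_mod (a := i % 12 + j + 2 * (h % 6)) (b := i + j + 2 * h) (by omega)] at hne

/-- every smaller letter is blocked in `U` -/
theorem U_blocked (i : ℕ) : ∀ c : ℕ, c < U i → ∃ h : ℕ, 1 ≤ h ∧ 3 * h ≤ i + 1 ∧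
    (∀ t : ℕ, 1 ≤ t → t < h → U (i - t) = U (i - t - 2 * h)) ∧ U (i - 2 * h) = c := by
  induction i using Nat.strong_induction_on with
  | _ i ih =>
  intro c hc
  by_cases h6 : i % 6 = 5
  · rw [U_sp' h6] at hc
    by_cases hc1 : c = 1
    · refine ⟨1, le_rfl, by omega, by intro t h1 h2; omega, ?_⟩
      have e : (i - 2) % 6 ≠ 5 := by omega
      rw [mul_one, U_ns e, hc1]
      rcases (by omega : (i - 2) % 12 = 3 ∨ (i - 2) % 12 = 9) with h | h
      · exact P_mod (b := 3) h
      · exact P_mod (b := 9) h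
    by_cases hc0 : c = 0
    · refine ⟨2, by omega, by omega, ?_, ?_⟩
      · intro t h1 h2
        have ht : t = 1 := by omega
        subst ht
        rw [U_ns (by omega), U_ns (by omega)]
        rcases (by omega : i % 12 = 5 ∨ i % 12 = 11) with h | h
        · rw [P_mod (a := i - 1) (b := 4) (by omega), P_mod (a := i - 1 - 2 * 2) (b := 0) (by omega)]
          rfl
        · rw [P_mod (a := i - 1) (b := 10) (by omega), P_mod (a := i - 1 - 2 * 2) (b := 6) (by omega)]
          rfl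
      · rw [U_ns (by omega), hc0]
        rcases (by omega : (i - 2 * 2) % 12 = 1 ∨ (i - 2 * 2) % 12 = 7) with h | h
        · exact P_mod (b := 1) h
        · exact P_mod (b := 7) h
    obtain ⟨h, h1, h3, hm, he⟩ := ih (i / 6) (by omega) (c - 2) (by omega)
    refine ⟨6 * h, by omega, by omega, ?_, ?_⟩
    · intro t t1 t2
      by_cases ht : t % 6 = 0
      · have := hm (t / 6) (by omega) (by omega)
        rw [U_sp' (n := i - t) (by omega), U_sp' (n := i - t - 2 * (6 * h)) (by omega)]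
        rw [show (i - t) / 6 = i / 6 - t / 6 by omega,
          show (i - t - 2 * (6 * h)) / 6 = i / 6 - t / 6 - 2 * h by omega, this]
      · rw [U_ns (n := i - t) (by omega), U_ns (n := i - t - 2 * (6 * h)) (by omega)]
        exact P_mod (by omega)
    · rw [U_sp' (by omega), show (i - 2 * (6 * h)) / 6 = i / 6 - 2 * h by omega, he]
      omega
  · rw [U_ns h6] at hc
    have key : ∀ r : ℕ, r < 12 → r % 6 ≠ 5 → P r ≤ 1 ∧ (P r = 1 → 2 ≤ r ∧ (r - 2) % 6 ≠ 5 ∧
        P (r - 2) = 0) := by decide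
    obtain ⟨k1, k2⟩ := key (i % 12) (Nat.mod_lt _ (by norm_num)) (by omega)
    rw [P_mod (a := i % 12) (b := i) (by omega)] at k1 k2
    obtain ⟨k3, k4, k5⟩ := k2 (by omega)
    refine ⟨1, le_rfl, by omega, by intro t h1 h2; omega, ?_⟩
    rw [mul_one, U_ns (by omega), P_mod (a := i - 2) (b := i % 12 - 2) (by omega), k5]
    omega

/-- `W` avoids all powers `≥ 3/2` -/
theorem W_avoid (m : ℕ) (hm : 1 ≤ m) (i : ℕ) : ∃ j : ℕ, 2 * j < m ∧ W (i + j) ≠ W (i + j + m) := by
  by_cases h10 : m % 10 = 0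
  · obtain ⟨g, rfl⟩ : ∃ g, m = 10 * g := ⟨m / 10, by omega⟩
    obtain ⟨j, hj, hne⟩ := U_avoid g (by omega) (i / 5)
    refine ⟨5 * (i / 5 + j) + 4 - i, by omega, ?_⟩
    have e1 : i + (5 * (i / 5 + j) + 4 - i) = 5 * (i / 5 + j) + 4 := by omega
    have e2 : 5 * (i / 5 + j) + 4 + 10 * g = 5 * (i / 5 + j + 2 * g) + 4 := by omega
    rw [e1, e2, W_sp, W_sp]; omega
  · have key1 : ∀ r : ℕ, r < 10 → ∀ g : ℕ, g < 10 → g ≠ 0 →
        ∃ j : ℕ, j < 5 ∧ 2 * j < g ∧ Q (r + j) ≠ Q (r + j + g) := by decide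
    have key2 : ∀ r : ℕ, r < 10 → ∀ g : ℕ, g < 10 → g ≠ 0 →
        ∃ j : ℕ, j < 5 ∧ Q (r + j) ≠ Q (r + j + g) := by decide
    by_cases hlt : m < 10
    · obtain ⟨j, -, hj, hne⟩ := key1 (i % 10) (Nat.mod_lt _ (by norm_num)) m hlt (by omega)
      refine ⟨j, hj, W_ne ?_⟩
      rwa [Q_mod (a := i % 10 + j) (b := i + j) (by omega),
        Q_mod (a := i % 10 + j + m) (b := i + j + m) (by omega)] at hne
    · obtain ⟨j, hj, hne⟩ := key2 (i % 10) (Nat.mod_lt _ (by norm_num)) (m % 10)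
        (Nat.mod_lt _ (by norm_num)) h10
      refine ⟨j, by omega, W_ne ?_⟩
      rwa [Q_mod (a := i % 10 + j) (b := i + j) (by omega),
        Q_mod (a := i % 10 + j + m % 10) (b := i + j + m) (by omega)] at hne

theorem W_avoids : Avoids 3 2 W := by
  intro i n m hm hn hper
  obtain ⟨j, hj, hne⟩ := W_avoid m hm i
  exact hne (hper j (by omega))

/-- every smaller letter is blocked in `W` -/
theorem W_blocked (i c : ℕ) (hc : c < W i) : ∃ n m : ℕ, 0 < m ∧ m < n ∧ n ≤ i + 1 ∧
    3 * m ≤ 2 * n ∧ (∀ t : ℕ, 1 ≤ t → t + m < n → W (i - t) = W (i - t - m)) ∧ W (i - m) = c := by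
  by_cases h5 : i % 5 = 4
  · rw [W_sp' h5] at hc
    by_cases c3 : c < 3
    · have key : ∀ r ∈ List.range 10, r % 5 = 4 → ∀ c ∈ List.range 3, ∃ m ∈ List.range 4, 0 < m ∧
          Q (r - m) = c ∧ (m = 3 → Q (r - 1) = Q (r - 4)) := by decide
      obtain ⟨m, hm4, hm, hQ, hQ3⟩ := key (i % 10) (List.mem_range.2 (Nat.mod_lt _ (by norm_num)))
        (by omega) c (List.mem_range.2 c3)
      rw [List.mem_range] at hm4
      refine ⟨m + (m + 1) / 2, m, hm, by omega, by omega, by omega, ?_, ?_⟩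
      · intro t t1 t2
        have ht : t = 1 ∧ m = 3 := by omega
        obtain ⟨rfl, rfl⟩ := ht
        rw [W_ns (by omega), W_ns (by omega), Q_mod (a := i - 1) (b := i % 10 - 1) (by omega),
          Q_mod (a := i - 1 - 3) (b := i % 10 - 4) (by omega)]
        exact hQ3 rfl
      · rw [W_ns (by omega), Q_mod (a := i - m) (b := i % 10 - m) (by omega), hQ]
    · obtain ⟨h, h1, h3, hmm, he⟩ := U_blocked (i / 5) (c - 3) (by omega)
      refine ⟨15 * h, 10 * h, by omega, by omega, by omega, by omega, ?_, ?_⟩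
      · intro t t1 t2
        by_cases ht : t % 5 = 0
        · have := hmm (t / 5) (by omega) (by omega)
          rw [W_sp' (n := i - t) (by omega), W_sp' (n := i - t - 10 * h) (by omega)]
          rw [show (i - t) / 5 = i / 5 - t / 5 by omega,
            show (i - t - 10 * h) / 5 = i / 5 - t / 5 - 2 * h by omega, this]
        · rw [W_ns (n := i - t) (by omega), W_ns (n := i - t - 10 * h) (by omega)]
          exact Q_mod (by omega)
      · rw [W_sp' (by omega), show (i - 10 * h) / 5 = i / 5 - 2 * h by omega, he]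
        omega
  · rw [W_ns h5] at hc
    have key : ∀ r ∈ List.range 10, r % 5 ≠ 4 → ∀ c ∈ List.range 3, c < Q r →
        ∃ m ∈ List.range 3, 0 < m ∧ m ≤ r ∧ (r - m) % 5 ≠ 4 ∧ Q (r - m) = c := by decide
    have hQ2 : ∀ r : ℕ, r < 10 → r % 5 ≠ 4 → Q r < 3 := by decide
    have hlt := hQ2 (i % 10) (Nat.mod_lt _ (by norm_num)) (by omega)
    rw [Q_mod (a := i % 10) (b := i) (by omega)] at hlt
    obtain ⟨m, hm3, hm, hmr, hm5, hQ⟩ := key (i % 10) (List.mem_range.2 (Nat.mod_lt _ (by norm_num)))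
      (by omega) c (List.mem_range.2 (by omega)) (by rwa [Q_mod (a := i % 10) (b := i) (by omega)])
    rw [List.mem_range] at hm3
    refine ⟨m + 1, m, hm, by omega, by omega, by omega, ?_, ?_⟩
    · intro t t1 t2; omega
    · rw [W_ns (by omega), Q_mod (a := i - m) (b := i % 10 - m) (by omega), hQ]

/-- `w_{≥3/2} = W` -/
theorem eq_W {w : ℕ → ℕ} (hw : Least 3 2 w) : w = W :=
  hw.eq_of_blocked W_avoids W_blocked

/-- the special part of `W` -/
def F0 (n : ℕ) : ℤ := if n % 5 = 4 then (U (n / 5) : ℤ) else 0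

/-- generators -/
def G : Set (ℕ → ℤ) := insert F0 {f | ∃ j < 10, f = fun n => if n % 10 = j then (1 : ℤ) else 0}

theorem G_fin : G.Finite := by
  refine Set.Finite.insert _ ?_
  have : {f : ℕ → ℤ | ∃ j < 10, f = fun n => if n % 10 = j then (1 : ℤ) else 0} =
      (fun j : ℕ => fun n : ℕ => if n % 10 = j then (1 : ℤ) else 0) '' {j | j < 10} := by
    ext f; constructor
    · rintro ⟨j, hj, rfl⟩; exact ⟨j, hj, rfl⟩
    · rintro ⟨j, hj, rfl⟩; exact ⟨j, hj, rfl⟩
  rw [this]
  exact (Set.finite_lt_nat 10).image _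

theorem per_mem {p : ℕ → ℤ} (hp : ∀ n, p n = p (n % 10)) : p ∈ Submodule.span ℤ G :=
  periodic_mem (by norm_num) (fun j hj => Or.inr ⟨j, hj, rfl⟩) hp

theorem F0_mem : F0 ∈ Submodule.span ℤ G := Submodule.subset_span (Or.inl rfl)

/-- `w_{≥3/2}` is `6`-regular -/
theorem W_regular : Regular 6 W := by
  refine regular_of_stable (by norm_num) G_fin ?_ ?_
  · rintro r hr f (rfl | ⟨j, hj, rfl⟩)
    · by_cases h5 : r = 5
      · subst h5
        have e : (fun n => F0 (6 * n + 5)) =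
            F0 + fun n => if n % 5 = 4 then (2 : ℤ) else 0 := by
          funext n
          simp only [Pi.add_apply, F0]
          by_cases h : n % 5 = 4
          · rw [if_pos (by omega), if_pos h, if_pos h,
              show (6 * n + 5) / 5 = 6 * (n / 5) + 5 by omega, U_sp]
            push_cast; ring
          · rw [if_neg (by omega), if_neg h, if_neg h]; ring
        rw [e]
        refine Submodule.add_mem _ F0_mem (per_mem fun n => ?_)
        rw [show n % 10 % 5 = n % 5 by omega]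
      · refine per_mem fun n => ?_
        simp only [F0]
        by_cases h : (n + r) % 5 = 4
        · rw [if_pos (by omega), if_pos (by omega), U_ns (by omega), U_ns (by omega),
            P_mod (a := (6 * n + r) / 5) (b := (6 * (n % 10) + r) / 5) (by omega)]
        · rw [if_neg (by omega), if_neg (by omega)]
    · refine per_mem fun n => ?_
      show (if (6 * n + r) % 10 = j then (1 : ℤ) else 0) =
        if (6 * (n % 10) + r) % 10 = j then (1 : ℤ) else 0
      rw [show (6 * (n % 10) + r) % 10 = (6 * n + r) % 10 by omega]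
  · have e : (fun n => ((W n : ℕ) : ℤ)) =
        F0 + fun n => if n % 5 = 4 then (3 : ℤ) else (Q n : ℤ) := by
      funext n
      simp only [Pi.add_apply, F0]
      by_cases h : n % 5 = 4
      · rw [W_sp' h, if_pos h, if_pos h]; push_cast; ring
      · rw [W_ns h, if_neg h, if_neg h]; ring
    rw [e]
    refine Submodule.add_mem _ F0_mem (per_mem fun n => ?_)
    rw [show n % 10 % 5 = n % 5 by omega, Q_mod (a := n % 10) (b := n) (by omega)]

theorem U_avoids : AvoidsExact 3 2 U := by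
  intro i n m hm hn hper
  obtain ⟨j, hj, hne⟩ := U_avoid (m / 2) (by omega) i
  exact hne (by have := hper j (by omega); rwa [show i + j + m = i + j + 2 * (m / 2) by omega] at this)

/-- `w_{3/2} = U` -/
theorem eq_U {u : ℕ → ℕ} (hu : LeastExact 3 2 u) : u = U := by
  refine hu.eq_of_blocked U_avoids fun i c hc => ?_
  obtain ⟨h, h1, h3, hm, he⟩ := U_blocked i c hc
  exact ⟨3 * h, 2 * h, by omega, by omega, by omega, by omega,
    fun t t1 t2 => hm t t1 (by omega), he⟩

theorem least_W : Least 3 2 W := by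
  refine ⟨W_avoids, fun v hv hne => ?_⟩
  exact least_of_blocked W_blocked hv hne

theorem least_U : LeastExact 3 2 U := by
  refine ⟨U_avoids, fun v hv hne => ?_⟩
  refine leastExact_of_blocked (fun i c hc => ?_) hv hne
  obtain ⟨h, h1, h3, hm, he⟩ := U_blocked i c hc
  exact ⟨3 * h, 2 * h, by omega, by omega, by omega, by omega,
    fun t t1 t2 => hm t t1 (by omega), he⟩

end TH
end Pool.Agent.LexPow
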